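import Pool.Agent.W734.STS.Stms

/-! Recurrent configurations without forbidden patterns are stable. -/

set_option autoImplicit false

noncomputable section

namespace Pool.Agent.W376.STS

open MeasureTheory Filter
open Pool.Agent.W734.STS

theorem loc_bound {Y X : Cf} (h : Loc Y X) : ∃ M : ℕ, ∀ i : ℤ, (M : ℤ) < |i| → Y i = X i := by
  have h' : {i | Y i ≠ X i}.Finite := h
  refine ⟨h'.toFinset.sup Int.natAbs, ?_⟩
  intro i hi
  by_contra hne
  have h1 : i ∈ h'.toFinset := by
    rw [Set.Finite.mem_toFinset]; exact hne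
  have h2 : Int.natAbs i ≤ h'.toFinset.sup Int.natAbs := Finset.le_sup (f := Int.natAbs) h1
  rw [Int.abs_eq_natAbs] at hi
  have h3 : h'.toFinset.sup Int.natAbs < Int.natAbs i := by exact_mod_cast hi
  omega

theorem loc_of_bound {Y X : Cf} (a b : ℤ) (h : ∀ i : ℤ, ¬ (a ≤ i ∧ i ≤ b) → Y i = X i) :
    Loc Y X := by
  refine (Set.finite_Icc a b).subset ?_
  intro i hi
  by_contra hc
  exact hi (h i hc)

theorem loc_trans {X Y Z : Cf} (h1 : Loc Z Y) (h2 : Loc Y X) : Loc Z X := by
  refine (h1.union h2).subset ?_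
  intro i hi
  by_cases h : Z i = Y i
  · right
    show Y i ≠ X i
    rw [← h]; exact hi
  · left; exact h

theorem G_nonneg (u : List (Fin 2)) : 0 ≤ G u := by
  unfold G
  have h1 : (0 : ℝ) ≤ lam := by unfold lam; norm_num
  have h2 : 0 ≤ ∑ i ∈ Finset.Icc 1 u.length, lam ^ i * (V (D i) u : ℝ) :=
    Finset.sum_nonneg fun i _ => mul_nonneg (pow_nonneg h1 i) (Nat.cast_nonneg _)
  positivity

theorem wrd_length (X : Cf) (a : ℤ) (N : ℕ) : (wrd X a N).length = N := by
  unfold wrd
  rw [List.length_map, List.length_range]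

theorem stable : S_FW → S_HREL → S_FR → S_STABLE := by
  intro hFW hHREL hFR Φ hΦ Φ' hΦ'
  obtain ⟨hco, hsh, hadd, hcont, -⟩ := hHREL
  obtain ⟨r, h, hr⟩ := hFR Φ' hΦ'
  obtain ⟨ρ, C, hC, hρ⟩ := hFW r h
  refine ⟨1 / (C + 1), by positivity, ?_⟩
  intro ε hε hε0 Ψ hΨ X hX hrec Y hYX
  by_contra hneg
  push Not at hneg
  have hεC : ε * C ≤ 1 := by
    rw [lt_div_iff₀ (by positivity)] at hε0
    nlinarith
  -- lower bound
  have hlow : ∀ Z : Cf, Loc Z X → -2 ≤ Hrel Ψ Z X := by
    intro Z hZ
    obtain ⟨M, hM⟩ := loc_bound hZ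
    have h1 := hadd Φ Φ' Ψ ε hΨ X Z hZ
    set a : ℤ := -(M : ℤ) - r with ha
    set N : ℕ := 2 * M + 2 * r + 1 with hN
    have h2 : ∀ i : ℤ, ¬ (a + r ≤ i ∧ i < a + N - r) → Z i = X i := by
      intro i hi
      apply hM
      by_contra hc
      push Not at hc
      rw [abs_le] at hc
      apply hi
      rw [ha, hN]
      push_cast
      constructor <;> omega
    have h3 := hr X Z a N h2
    have h4 := hΦ X Z hX hZ a N
    have h5 := hρ (wrd Z a N)
    have h6 := hρ (wrd X a N)
    rw [hX a N] at h6
    rw [wrd_length] at h5 h6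
    rw [abs_le] at h5 h6
    have hg := G_nonneg (wrd Z a N)
    set g := G (wrd Z a N) with hgdef
    have h7 : -(C * (2 + g)) ≤ Hrel Φ' Z X := by
      rw [h3]
      linarith [h5.1, h6.2]
    have h8 : ε * (-(C * (2 + g))) ≤ ε * Hrel Φ' Z X := mul_le_mul_of_nonneg_left h7 hε.le
    rw [h1]
    nlinarith [mul_nonneg hg (sub_nonneg.mpr hεC)]
  -- energy gain
  obtain ⟨R, hR⟩ := loc_bound hYX
  set η : ℝ := -Hrel Ψ Y X with hη
  have hηpos : 0 < η := by rw [hη]; linarith
  obtain ⟨S, hRS, hS⟩ := hcont Ψ R (η / 2) (by positivity)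
  have hgain : ∀ K : ℕ, ∃ (Z : Cf) (n : ℤ), (∀ i : ℤ, n < i → Z i = X i) ∧ Loc Z X ∧
      Hrel Ψ Z X ≤ -(K * (η / 2)) := by
    intro K
    induction K with
    | zero =>
      refine ⟨X, 0, fun _ _ => rfl, ?_, ?_⟩
      · exact loc_of_bound 0 0 fun _ _ => rfl
      · unfold Hrel
        simp
    | succ K ih =>
      obtain ⟨Z, n, hZn, hZX, hZ⟩ := ih
      obtain ⟨m, hm, hmX⟩ := hrec S (n + S)
      set Z' : Cf := fun j => if |j - m| ≤ (R : ℤ) then Y (j - m) else Z j with hZ'
      have hZ'1 : ∀ j : ℤ, ¬ |j - m| ≤ (R : ℤ) → Z' j = Z j := by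
        intro j hj
        rw [hZ']
        simp only
        rw [if_neg hj]
      have hZ'2 : ∀ j : ℤ, |j - m| ≤ (R : ℤ) → Z' j = Y (j - m) := by
        intro j hj
        rw [hZ']
        simp only
        rw [if_pos hj]
      have hLoc : Loc Z' Z := by
        refine loc_of_bound (m - R) (m + R) ?_
        intro j hj
        apply hZ'1
        intro hc
        rw [abs_le] at hc
        apply hj
        constructor <;> omega
      have hLocX : Loc Z' X := loc_trans hLoc hZX
      have hRS' : (R : ℤ) ≤ S := by exact_mod_cast hRS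
      refine ⟨Z', m + R, ?_, hLocX, ?_⟩
      · intro j hj
        rw [hZ'1 j]
        · apply hZn; omega
        · intro hc
          rw [abs_le] at hc
          omega
      · have e1 : Hrel Ψ Z' X = Hrel Ψ Z' Z + Hrel Ψ Z X := hco Ψ X Z Z' hZX hLoc
        have e2 : Hrel Ψ (shift (-m) Z') (shift (-m) Z) = Hrel Ψ Z' Z := hsh Ψ Z Z' (-m)
        have e3 : |Hrel Ψ Y X - Hrel Ψ (shift (-m) Z') (shift (-m) Z)| ≤ η / 2 := by
          apply hS X (shift (-m) Z) Y (shift (-m) Z')
          · intro i hi
            have e4 : Z (i + m) = X i := by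
              rw [hZn (i + m), hmX i hi]
              rw [abs_le] at hi
              omega
            have e5 : i - -m = i + m := by ring
            constructor
            · unfold shift
              rw [e5]; exact e4.symm
            · unfold shift
              rw [e5]
              by_cases hiR : |i| ≤ (R : ℤ)
              · rw [hZ'2 (i + m) (by rw [add_sub_cancel_right]; exact hiR), add_sub_cancel_right]
              · rw [hZ'1 (i + m) (by rw [add_sub_cancel_right]; exact hiR), e4]
                apply hR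
                push Not at hiR
                exact hiR
          · intro i hi
            refine ⟨hR i hi, ?_⟩
            have e5 : i - -m = i + m := by ring
            unfold shift
            rw [e5]
            apply hZ'1
            rw [add_sub_cancel_right]
            push Not
            exact hi
        rw [e2, abs_le] at e3
        rw [e1]
        push_cast
        have e6 := e3.2
        have e7 : Hrel Ψ Y X = -η := by rw [hη]; ring
        have e8 := e3.1
        linarith
  obtain ⟨K, hK⟩ := exists_nat_gt (4 / η)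
  obtain ⟨Z, n, -, hZX, hZ⟩ := hgain K
  have h1 := hlow Z hZX
  rw [div_lt_iff₀ hηpos] at hK
  linarith

end Pool.Agent.W376.STS
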